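import Pool.Agent.H535.WS.Dk

set_option autoImplicit false

/-!
# The weighted number of squarefree integers in `(K, 4K]`
-/

open Finset

namespace Pool.Agent.H535.WS

open Pool.Agent.W110.HV

theorem W3_mul_prime (m p : ℕ) (hp : p.Prime) (h : ¬ p ∣ m) : W3 (m * p) = 3 * W3 m := by
  have hc : Nat.Coprime m p := ((Nat.Prime.coprime_iff_not_dvd hp).2 h).symm
  unfold W3
  rw [hc.primeFactors_mul, card_union_of_disjoint hc.disjoint_primeFactors, hp.primeFactors,
    card_singleton, pow_succ]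
  ring

theorem block_sum : ∃ c : ℝ, 0 < c ∧ ∃ K0 : ℕ, ∀ K : ℕ, K0 ≤ K →
    c * (K * Real.log K ^ 2) ≤ ∑ d ∈ (Ioc K (4 * K)).filter Squarefree, W3 d := by
  classical
  obtain ⟨c, hc, hA⟩ := AA_lower
  obtain ⟨z0, hz0⟩ := rankin
  obtain ⟨y0, hy1, hpr⟩ := primes_block
  obtain ⟨n1, h1⟩ := ev_const (max ((z0 : ℝ) + 4) (y0 + 4)) (1 / 32) (by norm_num)
  have hlogt : Filter.Tendsto (fun N : ℕ => Real.log N) Filter.atTop Filter.atTop :=
    Real.tendsto_log_atTop.comp tendsto_natCast_atTop_atTop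
  obtain ⟨n2, h2⟩ := Filter.eventually_atTop.1 (hlogt.eventually (Filter.eventually_ge_atTop 64))
  refine ⟨c / 4 * (1 / 64) ^ 3, by positivity, max (max n1 n2) 1, fun K hK => ?_⟩
  have g1 := h1 K (le_trans (le_trans (le_max_left _ _) (le_max_left _ _)) hK)
  have g2 := h2 K (le_trans (le_trans (le_max_right _ _) (le_max_left _ _)) hK)
  have hK1 : 1 ≤ K := le_trans (le_max_right _ _) hK
  have hK0 : (0 : ℝ) < K := by exact_mod_cast hK1
  have hK1r : (1 : ℝ) ≤ K := by exact_mod_cast hK1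
  set u : ℝ := (K : ℝ) ^ (1 / 32 : ℝ) with hu
  have hu32 : u ^ 32 = K := by
    rw [hu, ← Real.rpow_natCast, ← Real.rpow_mul hK0.le]
    norm_num
  have hu1 : (z0 : ℝ) + 4 ≤ u := (le_max_left _ _).trans g1
  have hu2 : y0 + 4 ≤ u := (le_max_right _ _).trans g1
  have hu4 : 4 ≤ u := by linarith
  have hu0 : 0 < u := by linarith
  set z := ⌊u⌋₊ with hz
  have hzu : (z : ℝ) ≤ u := Nat.floor_le hu0.le
  have hzu1 : u < z + 1 := Nat.lt_floor_add_one u
  have hzu2 : u / 2 ≤ z := by linarith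
  have hzz0 : z0 ≤ z := by
    rw [hz, Nat.le_floor_iff hu0.le]
    linarith
  have hz3 : 3 ≤ z := by
    rw [hz, Nat.le_floor_iff hu0.le]
    push_cast
    linarith
  have hz3r : (3 : ℝ) ≤ z := by exact_mod_cast hz3
  set M := z ^ 8 with hM
  have hMu : (M : ℝ) ≤ u ^ 8 := by
    rw [hM]
    push_cast
    exact pow_le_pow_left₀ (by positivity) hzu 8
  have hM1 : 1 ≤ M := Nat.one_le_pow _ _ (by omega)
  have hMM : M * M ≤ K := by
    have : ((M * M : ℕ) : ℝ) ≤ (K : ℝ) := by
      push_cast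
      calc (M : ℝ) * M ≤ u ^ 8 * u ^ 8 := mul_le_mul hMu hMu (by positivity) (by positivity)
        _ = u ^ 16 := by ring
        _ ≤ u ^ 32 := pow_le_pow_right₀ (by linarith) (by norm_num)
        _ = K := hu32
    exact_mod_cast this
  have hlogK : 0 < Real.log K := by linarith
  have hl4K : Real.log (4 * K) ≤ 2 * Real.log K := by
    rw [Real.log_mul (by norm_num) hK0.ne']
    have h3 : Real.log 4 ≤ 2 := by
      rw [show (4 : ℝ) = 2 ^ 2 by norm_num, Real.log_pow]
      have := Real.log_two_lt_d9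
      push_cast
      linarith
    linarith
  have hl4K0 : 0 < Real.log (4 * K) := Real.log_pos (by linarith)
  set T := (Icc 1 M).filter Squarefree with hT
  have hTm : ∀ m ∈ T, 1 ≤ m ∧ m ≤ M ∧ Squarefree m := by
    intro m hm
    rw [hT, mem_filter, mem_Icc] at hm
    exact ⟨hm.1.1, hm.1.2, hm.2⟩
  set Bm : ℕ → Finset ℕ := fun m => (Ioc (K / m) (4 * K / m)).filter Nat.Prime with hBm
  have hcount : ∀ m ∈ T, (K : ℝ) / m / Real.log (4 * K) ≤ ((Bm m).card : ℝ) := by
    intro m hm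
    obtain ⟨hm1, hmM, _⟩ := hTm m hm
    have hm0 : (0 : ℝ) < m := by exact_mod_cast hm1
    have hy : y0 ≤ (K : ℝ) / m := by
      rw [le_div_iff₀ hm0]
      have hmu : (m : ℝ) ≤ u ^ 8 := le_trans (by exact_mod_cast hmM) hMu
      calc y0 * m ≤ u * u ^ 8 := mul_le_mul (by linarith) hmu (by positivity) (by positivity)
        _ = u ^ 9 := by ring
        _ ≤ u ^ 32 := pow_le_pow_right₀ (by linarith) (by norm_num)
        _ = K := hu32
    have h3 := hpr _ hy
    have e1 : ⌊(K : ℝ) / m⌋₊ = K / m := Nat.floor_div_eq_div K m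
    have e2 : ⌊4 * ((K : ℝ) / m)⌋₊ = 4 * K / m := by
      have : 4 * ((K : ℝ) / m) = ((4 * K : ℕ) : ℝ) / m := by
        push_cast
        ring
      rw [this]
      exact Nat.floor_div_eq_div (4 * K) m
    rw [e1, e2] at h3
    refine le_trans ?_ h3
    have hy1' : 1 ≤ (K : ℝ) / m := hy1.trans hy
    apply div_le_div_of_nonneg_left (by positivity) (Real.log_pos (by linarith))
    apply Real.log_le_log (by linarith)
    have hm1r : (1 : ℝ) ≤ m := by exact_mod_cast hm1
    have : (K : ℝ) / m ≤ K := div_le_self hK0.le hm1r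
    linarith
  have hmem : ∀ m ∈ T, ∀ p ∈ Bm m, p.Prime ∧ K < m * p ∧ m * p ≤ 4 * K ∧ M < p := by
    intro m hm p hp
    obtain ⟨hm1, hmM, _⟩ := hTm m hm
    rw [hBm] at hp
    simp only [mem_filter, mem_Ioc] at hp
    obtain ⟨⟨h3, h4⟩, h5⟩ := hp
    rw [Nat.div_lt_iff_lt_mul (by omega)] at h3
    rw [Nat.le_div_iff_mul_le (by omega)] at h4
    refine ⟨h5, by rw [mul_comm]; exact h3, by rw [mul_comm]; exact h4, ?_⟩
    by_contra hcon
    have : p * m ≤ M * M := Nat.mul_le_mul (by omega) hmM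
    omega
  have hnd : ∀ m ∈ T, ∀ p ∈ Bm m, ∀ m' ∈ T, ¬ p ∣ m' := by
    intro m hm p hp m' hm' hd
    have h3 := (hmem m hm p hp).2.2.2
    have h4 := hTm m' hm'
    have := Nat.le_of_dvd (by omega) hd
    omega
  have hinj : Set.InjOn (fun x : (_ : ℕ) × ℕ => x.1 * x.2) (T.sigma Bm : Finset ((_ : ℕ) × ℕ)) := by
    rintro ⟨m, p⟩ h ⟨m', p'⟩ h' heq
    rw [mem_coe, mem_sigma] at h h'
    simp only at h h' heq
    have hp := (hmem m h.1 p h.2).1
    have hp' := (hmem m' h'.1 p' h'.2).1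
    have h3 : p ∣ m' * p' := by
      rw [← heq]
      exact dvd_mul_left p m
    rcases (Nat.Prime.dvd_mul hp).1 h3 with h4 | h4
    · exact absurd h4 (hnd m h.1 p h.2 m' h'.1)
    · have h5 := (Nat.prime_dvd_prime_iff_eq hp hp').1 h4
      subst h5
      have := Nat.eq_of_mul_eq_mul_right hp.pos heq
      subst this
      rfl
  have hmain : ∑ m ∈ T, W3 m * ((Bm m).card : ℝ) ≤ ∑ d ∈ (Ioc K (4 * K)).filter Squarefree, W3 d := by
    calc ∑ m ∈ T, W3 m * ((Bm m).card : ℝ) = ∑ m ∈ T, ∑ _p ∈ Bm m, W3 m := by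
          refine sum_congr rfl fun m _ => ?_
          rw [sum_const, nsmul_eq_mul, mul_comm]
      _ ≤ ∑ m ∈ T, ∑ p ∈ Bm m, W3 (m * p) := by
          refine sum_le_sum fun m hm => sum_le_sum fun p hp => ?_
          rw [W3_mul_prime m p (hmem m hm p hp).1 (hnd m hm p hp m hm)]
          linarith [W3_pos m]
      _ = ∑ x ∈ T.sigma Bm, W3 (x.1 * x.2) := by rw [sum_sigma]
      _ = ∑ d ∈ (T.sigma Bm).image (fun x : (_ : ℕ) × ℕ => x.1 * x.2), W3 d := by rw [sum_image hinj]
      _ ≤ _ := by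
          refine sum_le_sum_of_subset_of_nonneg ?_ (fun d _ _ => (W3_pos d).le)
          intro d hd
          rw [mem_image] at hd
          obtain ⟨⟨m, p⟩, h3, rfl⟩ := hd
          rw [mem_sigma] at h3
          obtain ⟨h4, h5, h6, h7⟩ := hmem m h3.1 p h3.2
          rw [mem_filter, mem_Ioc]
          refine ⟨⟨h5, h6⟩, ?_⟩
          have h8 := hnd m h3.1 p h3.2 m h3.1
          simp only
          rw [Nat.squarefree_mul ((Nat.Prime.coprime_iff_not_dvd h4).2 h8).symm]
          exact ⟨(hTm m h3.1).2.2, h4.squarefree⟩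
  have hlow : K / Real.log (4 * K) * (AA z / 2) ≤ ∑ m ∈ T, W3 m * ((Bm m).card : ℝ) := by
    calc K / Real.log (4 * K) * (AA z / 2) ≤ K / Real.log (4 * K) * ∑ m ∈ T, W3 m / (m : ℝ) :=
          mul_le_mul_of_nonneg_left (hz0 z hzz0) (by positivity)
      _ = ∑ m ∈ T, W3 m * ((K : ℝ) / m / Real.log (4 * K)) := by
          rw [mul_sum]
          refine sum_congr rfl fun m _ => ?_
          ring
      _ ≤ _ := sum_le_sum fun m hm => mul_le_mul_of_nonneg_left (hcount m hm) (W3_pos m).le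
  refine le_trans ?_ (hlow.trans hmain)
  have hlz : Real.log K / 64 ≤ Real.log z := by
    have h3 : Real.log u = Real.log K / 32 := by
      rw [hu, Real.log_rpow hK0]
      ring
    have h4 : Real.log (u / 2) ≤ Real.log z := Real.log_le_log (by positivity) hzu2
    rw [Real.log_div hu0.ne' (by norm_num), h3] at h4
    have := Real.log_two_lt_d9
    linarith
  have h3 := hA z hz3
  have h4 : (Real.log K / 64) ^ 3 ≤ Real.log z ^ 3 := pow_le_pow_left₀ (by positivity) hlz 3
  have h5 : c * (Real.log K / 64) ^ 3 ≤ AA z := (mul_le_mul_of_nonneg_left h4 hc.le).trans h3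
  calc c / 4 * (1 / 64) ^ 3 * (K * Real.log K ^ 2) = K / (2 * Real.log K) * (c * (Real.log K / 64) ^ 3 / 2) := by
        field_simp
        ring
    _ ≤ K / Real.log (4 * K) * (AA z / 2) := by
        apply mul_le_mul
        · exact div_le_div_of_nonneg_left hK0.le hl4K0 hl4K
        · linarith
        · positivity
        · positivity

end Pool.Agent.H535.WS
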