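import Pool.Graph.R_seed8.Erdos456.Mertens
import Pool.Agent.H535.LB.Main
import Pool.Agent.H535.LB.Sqf

set_option autoImplicit false

/-!
# Squarefree integers in short ranges with the weight `3 ^ ω`
-/

open Finset

namespace Pool.Agent.H535.WS

/-- the product over the primes up to `z` -/
noncomputable def AA (z : ℕ) : ℝ := ∏ p ∈ (Icc 1 z).filter Nat.Prime, (1 + 3 / (p : ℝ))

/-- the weight `3 ^ ω(m)` -/
noncomputable def W3 (m : ℕ) : ℝ := 3 ^ m.primeFactors.card

theorem W3_pos (m : ℕ) : 0 < W3 m := by unfold W3; positivity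

theorem inv_sq_primes (z : ℕ) : ∑ p ∈ (Icc 1 z).filter Nat.Prime, 1 / (p : ℝ) ^ 2 ≤ 1 := by
  rcases Nat.lt_or_ge z 2 with h | h
  · have : (Icc 1 z).filter Nat.Prime = ∅ := by
      rw [filter_eq_empty_iff]
      intro p hp hpp
      rw [mem_Icc] at hp
      have := hpp.two_le
      omega
    rw [this, sum_empty]
    norm_num
  · have h1 := Pool.Agent.H535.LB.inv_sq_sum z h
    have h2 : ∑ p ∈ (Icc 1 z).filter Nat.Prime, 1 / (p : ℝ) ^ 2 ≤ ∑ m ∈ Icc 2 z, 1 / (m : ℝ) ^ 2 := by
      refine sum_le_sum_of_subset_of_nonneg ?_ (fun _ _ _ => by positivity)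
      intro p hp
      rw [mem_filter, mem_Icc] at hp
      rw [mem_Icc]
      exact ⟨hp.2.two_le, hp.1.2⟩
    have h3 : (0 : ℝ) ≤ 1 / z := by positivity
    linarith

theorem AA_lower : ∃ c : ℝ, 0 < c ∧ ∀ z : ℕ, 3 ≤ z → c * Real.log z ^ 3 ≤ AA z := by
  obtain ⟨C, hC⟩ := Pool.Agent.Erdos456.Mert.mertens_inv
  refine ⟨Real.exp (-(3 * C + 9 / 2)), Real.exp_pos _, fun z hz => ?_⟩
  have hz3 : (3 : ℝ) ≤ z := by exact_mod_cast hz
  have hlog : 0 < Real.log z := Real.log_pos (by linarith)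
  have h1 := abs_le.1 (hC z hz)
  have h2 := inv_sq_primes z
  have h3 : ∑ p ∈ (Icc 1 z).filter Nat.Prime, (3 * ((1 : ℝ) / p) - 9 / 2 * (1 / (p : ℝ) ^ 2)) ≤
      ∑ p ∈ (Icc 1 z).filter Nat.Prime, Real.log (1 + 3 / (p : ℝ)) := by
    refine sum_le_sum fun p hp => ?_
    rw [mem_filter, mem_Icc] at hp
    have hp0 : (0 : ℝ) < p := by exact_mod_cast hp.2.pos
    have e : 3 * ((1 : ℝ) / p) - 9 / 2 * (1 / (p : ℝ) ^ 2) = (3 / (p : ℝ)) - (3 / (p : ℝ)) ^ 2 / 2 := by
      field_simp
      ring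
    rw [e]
    have hx0 : 0 < 3 / (p : ℝ) := by positivity
    generalize 3 / (p : ℝ) = x at hx0
    have h4 := Real.le_log_one_add_of_nonneg hx0.le
    refine le_trans ?_ h4
    rw [le_div_iff₀ (by linarith)]
    nlinarith [pow_pos hx0 3]
  rw [sum_sub_distrib, ← mul_sum, ← mul_sum] at h3
  have h4 : AA z = Real.exp (∑ p ∈ (Icc 1 z).filter Nat.Prime, Real.log (1 + 3 / (p : ℝ))) := by
    unfold AA
    rw [Real.exp_sum]
    refine prod_congr rfl fun p _ => ?_
    rw [Real.exp_log]
    positivity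
  have e6 : Real.log z ^ 3 = Real.exp (3 * Real.log (Real.log z)) := by
    have : 3 * Real.log (Real.log z) = Real.log (Real.log z ^ 3) := by
      rw [Real.log_pow]
      push_cast
      ring
    rw [this, Real.exp_log (by positivity)]
  rw [h4, e6, ← Real.exp_add]
  apply Real.exp_le_exp.2
  linarith

theorem exp_le_lin (u : ℝ) (h0 : 0 ≤ u) (h1 : u ≤ 1) : Real.exp u ≤ 1 + 2 * u := by
  have h := convexOn_exp.2 (Set.mem_univ (0 : ℝ)) (Set.mem_univ (1 : ℝ)) (by linarith : 0 ≤ 1 - u) h0 (by ring)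
  simp only [smul_eq_mul, mul_zero, mul_one, zero_add, Real.exp_zero] at h
  have := Real.exp_one_lt_d9
  nlinarith

theorem rankin : ∃ z0 : ℕ, ∀ z : ℕ, z0 ≤ z →
    AA z / 2 ≤ ∑ m ∈ (Icc 1 (z ^ 8)).filter Squarefree, W3 m / (m : ℝ) := by
  classical
  obtain ⟨C, hC⟩ := Pool.Agent.Erdos456.Mert.mertens_log
  have hlogt : Filter.Tendsto (fun N : ℕ => Real.log N) Filter.atTop Filter.atTop :=
    Real.tendsto_log_atTop.comp tendsto_natCast_atTop_atTop
  obtain ⟨n1, h1⟩ := Filter.eventually_atTop.1 (hlogt.eventually (Filter.eventually_ge_atTop (6 * C)))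
  refine ⟨max n1 3, fun z hz => ?_⟩
  have hz1 := h1 z ((le_max_left _ _).trans hz)
  have hz3 : 3 ≤ z := (le_max_right _ _).trans hz
  have hzr : (3 : ℝ) ≤ z := by exact_mod_cast hz3
  have hlog : 0 < Real.log z := Real.log_pos (by linarith)
  set P := (Icc 1 z).filter Nat.Prime with hP
  have hPp : ∀ p ∈ P, p.Prime ∧ p ≤ z := by
    intro p hp
    rw [hP, mem_filter, mem_Icc] at hp
    exact ⟨hp.2, hp.1.2⟩
  have hA : AA z = ∑ S ∈ P.powerset, ∏ p ∈ S, 3 / (p : ℝ) := by
    unfold AA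
    rw [prod_one_add]
  have hsplit := sum_filter_add_sum_filter_not P.powerset (fun S : Finset ℕ => ∏ p ∈ S, p ≤ z ^ 8)
    (fun S => ∏ p ∈ S, 3 / (p : ℝ))
  have hSp : ∀ S ∈ P.powerset, ∀ p ∈ S, p.Prime ∧ p ≤ z := fun S hS p hp => hPp p (mem_powerset.1 hS hp)
  have hprim : ∀ S ∈ P.powerset, (∏ p ∈ S, p).primeFactors = S :=
    fun S hS => Nat.primeFactors_prod (fun p hp => (hSp S hS p hp).1)
  have hgood : ∑ S ∈ P.powerset.filter (fun S : Finset ℕ => ∏ p ∈ S, p ≤ z ^ 8), ∏ p ∈ S, 3 / (p : ℝ) ≤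
      ∑ m ∈ (Icc 1 (z ^ 8)).filter Squarefree, W3 m / (m : ℝ) := by
    have e1 : ∀ S ∈ P.powerset.filter (fun S : Finset ℕ => ∏ p ∈ S, p ≤ z ^ 8),
        ∏ p ∈ S, 3 / (p : ℝ) = W3 (∏ p ∈ S, p) / ((∏ p ∈ S, p : ℕ) : ℝ) := by
      intro S hS
      rw [mem_filter] at hS
      unfold W3
      rw [hprim S hS.1, prod_div_distrib, prod_const, Nat.cast_prod]
    rw [sum_congr rfl e1]
    have hinj : Set.InjOn (fun S : Finset ℕ => ∏ p ∈ S, p)
        (P.powerset.filter (fun S : Finset ℕ => ∏ p ∈ S, p ≤ z ^ 8) : Finset (Finset ℕ)) := by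
      intro S hS T hT hST
      rw [mem_coe, mem_filter] at hS hT
      have h5 := congrArg Nat.primeFactors hST
      simp only at h5
      rwa [hprim S hS.1, hprim T hT.1] at h5
    rw [← sum_image (f := fun m : ℕ => W3 m / (m : ℝ)) hinj]
    refine sum_le_sum_of_subset_of_nonneg ?_ ?_
    · intro m hm
      rw [mem_image] at hm
      obtain ⟨S, hS, rfl⟩ := hm
      rw [mem_filter] at hS
      rw [mem_filter, mem_Icc]
      refine ⟨⟨?_, hS.2⟩, ?_⟩
      · exact Nat.one_le_iff_ne_zero.2 (prod_ne_zero_iff.2 fun p hp => (hSp S hS.1 p hp).1.ne_zero)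
      · refine Finset.squarefree_prod_of_pairwise_isCoprime (fun p hp q hq hpq => ?_)
          (fun p hp => (hSp S hS.1 p hp).1.squarefree)
        exact Nat.coprime_iff_isRelPrime.1 ((Nat.coprime_primes (hSp S hS.1 p hp).1 (hSp S hS.1 q hq).1).2 hpq)
    · intro m _ _
      exact div_nonneg (W3_pos m).le (Nat.cast_nonneg _)
  have hbad : ∑ S ∈ P.powerset.filter (fun S : Finset ℕ => ¬ ∏ p ∈ S, p ≤ z ^ 8), ∏ p ∈ S, 3 / (p : ℝ) ≤
      AA z / 2 := by
    have e1 : ∀ S ∈ P.powerset.filter (fun S : Finset ℕ => ¬ ∏ p ∈ S, p ≤ z ^ 8), ∏ p ∈ S, 3 / (p : ℝ) ≤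
        Real.exp (-8) * ∏ p ∈ S, (3 / (p : ℝ) * Real.exp (Real.log p / Real.log z)) := by
      intro S hS
      rw [mem_filter, not_le] at hS
      rw [prod_mul_distrib, ← Real.exp_sum, ← sum_div]
      have h2 : Real.log ((z ^ 8 : ℕ) : ℝ) ≤ ∑ p ∈ S, Real.log (p : ℝ) := by
        rw [← Real.log_prod (fun p hp => by exact_mod_cast (hSp S hS.1 p hp).1.ne_zero), ← Nat.cast_prod]
        exact Real.log_le_log (by positivity) (by exact_mod_cast hS.2.le)
      have h3 : 8 ≤ (∑ p ∈ S, Real.log (p : ℝ)) / Real.log z := by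
        rw [le_div_iff₀ hlog]
        push_cast at h2
        rw [Real.log_pow] at h2
        push_cast at h2
        linarith
      have h4 : 1 ≤ Real.exp (-8) * Real.exp ((∑ p ∈ S, Real.log (p : ℝ)) / Real.log z) := by
        rw [← Real.exp_add]
        exact Real.one_le_exp (by linarith)
      have h5 : 0 ≤ ∏ p ∈ S, 3 / (p : ℝ) := prod_nonneg fun p _ => by positivity
      have h6 := mul_le_mul_of_nonneg_left h4 h5
      linarith
    have e2 : ∏ p ∈ P, (1 + 3 / (p : ℝ) * Real.exp (Real.log p / Real.log z)) ≤ AA z * Real.exp 7 := by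
      have e3 : ∏ p ∈ P, (1 + 3 / (p : ℝ) * Real.exp (Real.log p / Real.log z)) ≤
          ∏ p ∈ P, ((1 + 3 / (p : ℝ)) * Real.exp (6 / Real.log z * (Real.log p / p))) := by
        refine prod_le_prod (fun p _ => by positivity) fun p hp => ?_
        obtain ⟨hpp, hpz⟩ := hPp p hp
        have hp0 : (0 : ℝ) < p := by exact_mod_cast hpp.pos
        have hp1 : (1 : ℝ) ≤ p := by exact_mod_cast hpp.one_lt.le
        have hlp : 0 ≤ Real.log p := Real.log_nonneg hp1
        have hu0 : 0 ≤ Real.log p / Real.log z := div_nonneg hlp hlog.le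
        have hu1 : Real.log p / Real.log z ≤ 1 := by
          rw [div_le_one hlog]
          exact Real.log_le_log hp0 (by exact_mod_cast hpz)
        have h3 := exp_le_lin _ hu0 hu1
        have e4 : 6 / Real.log z * (Real.log p / p) = 6 * (Real.log p / Real.log z) / p := by ring
        rw [e4]
        generalize Real.log p / Real.log z = u at *
        have h4 : 1 + 6 * u / p ≤ Real.exp (6 * u / p) := by
          have := Real.add_one_le_exp (6 * u / p)
          linarith
        have h5 : 0 ≤ 3 / (p : ℝ) := by positivity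
        have h6 : 0 ≤ 6 * u / p := by positivity
        calc 1 + 3 / (p : ℝ) * Real.exp u ≤ 1 + 3 / (p : ℝ) * (1 + 2 * u) := by
              have := mul_le_mul_of_nonneg_left h3 h5
              linarith
          _ = 1 + 3 / (p : ℝ) + 6 * u / p := by ring
          _ ≤ (1 + 3 / (p : ℝ)) * (1 + 6 * u / p) := by
              have := mul_nonneg h5 h6
              nlinarith
          _ ≤ _ := mul_le_mul_of_nonneg_left h4 (by positivity)
      refine e3.trans ?_
      rw [prod_mul_distrib, ← Real.exp_sum, ← mul_sum]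
      have e5 : ∏ p ∈ P, (1 + 3 / (p : ℝ)) = AA z := rfl
      rw [e5]
      have hA0 : 0 ≤ AA z := by
        unfold AA
        exact prod_nonneg fun p _ => by positivity
      apply mul_le_mul_of_nonneg_left _ hA0
      apply Real.exp_le_exp.2
      have h6 := (abs_le.1 (hC z (by omega))).2
      calc 6 / Real.log z * ∑ p ∈ P, Real.log (p : ℝ) / p ≤ 6 / Real.log z * (Real.log z + C) := by
            apply mul_le_mul_of_nonneg_left _ (by positivity)
            linarith
        _ = 6 + 6 * C / Real.log z := by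
            field_simp
        _ ≤ 6 + 1 := by
            have : 6 * C / Real.log z ≤ 1 := by
              rw [div_le_one hlog]
              exact hz1
            linarith
        _ = 7 := by norm_num
    have hA0 : 0 ≤ AA z := by
      unfold AA
      exact prod_nonneg fun p _ => by positivity
    calc _ ≤ ∑ S ∈ P.powerset.filter (fun S : Finset ℕ => ¬ ∏ p ∈ S, p ≤ z ^ 8),
          Real.exp (-8) * ∏ p ∈ S, (3 / (p : ℝ) * Real.exp (Real.log p / Real.log z)) := sum_le_sum e1
      _ ≤ ∑ S ∈ P.powerset,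
          Real.exp (-8) * ∏ p ∈ S, (3 / (p : ℝ) * Real.exp (Real.log p / Real.log z)) := by
          refine sum_le_sum_of_subset_of_nonneg (filter_subset _ _) fun S _ _ => ?_
          exact mul_nonneg (Real.exp_pos _).le (prod_nonneg fun p _ => by positivity)
      _ = Real.exp (-8) * ∏ p ∈ P, (1 + 3 / (p : ℝ) * Real.exp (Real.log p / Real.log z)) := by
          rw [← mul_sum, prod_one_add]
      _ ≤ Real.exp (-8) * (AA z * Real.exp 7) := mul_le_mul_of_nonneg_left e2 (Real.exp_pos _).le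
      _ = AA z * Real.exp (-1) := by
          have : Real.exp (-1) = Real.exp (-8) * Real.exp 7 := by
            rw [← Real.exp_add]
            norm_num
          rw [this]
          ring
      _ ≤ AA z * (1 / 2) := by
          apply mul_le_mul_of_nonneg_left _ hA0
          rw [Real.exp_neg, inv_eq_one_div]
          apply div_le_div_of_nonneg_left (by norm_num) (by norm_num)
          have := Real.add_one_le_exp (1 : ℝ)
          linarith
      _ = AA z / 2 := by ring
  linarith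

/-- Chebyshev in `(y, 4 y]` -/
theorem primes_block : ∃ y0 : ℝ, 1 ≤ y0 ∧ ∀ y : ℝ, y0 ≤ y →
    y / Real.log (4 * y) ≤ (((Ioc ⌊y⌋₊ ⌊4 * y⌋₊).filter Nat.Prime).card : ℝ) := by
  refine ⟨100 ^ 4, by norm_num, fun y hy => ?_⟩
  have hy0 : 0 < y := by linarith [(by norm_num : (0 : ℝ) < 100 ^ 4)]
  have hy1 : 1 ≤ y := by linarith [(by norm_num : (1 : ℝ) ≤ 100 ^ 4)]
  set x := 4 * y with hx
  have hx0 : 0 < x := by positivity
  have hx4 : 4 ≤ x := by linarith
  have hlogx : 0 < Real.log x := Real.log_pos (by linarith)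
  set t : ℝ := x ^ (1 / 4 : ℝ) with ht
  have ht4 : t ^ 4 = x := by
    rw [ht, ← Real.rpow_natCast, ← Real.rpow_mul hx0.le]
    norm_num
  have ht100 : 100 ≤ t := by
    rw [ht, ← Real.rpow_natCast (100 : ℝ) 4] at *
    calc (100 : ℝ) = ((100 : ℝ) ^ 4) ^ (1 / 4 : ℝ) := by
          rw [← Real.rpow_natCast, ← Real.rpow_mul (by norm_num)]
          norm_num
      _ ≤ x ^ (1 / 4 : ℝ) := by
          apply Real.rpow_le_rpow (by norm_num) _ (by norm_num)
          have : (100 : ℝ) ^ 4 ≤ y := by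
            have h := hy
            norm_num at h ⊢
            exact h
          linarith
  have hl1 : Real.log x ≤ 4 * t := by
    have := Real.log_le_rpow_div hx0.le (by norm_num : (0 : ℝ) < 1 / 4)
    rw [← ht] at this
    linarith
  have hl2 : Real.log (x + 2) ≤ 1 + 4 * t := by
    have h1 : Real.log (x + 2) ≤ Real.log (2 * x) := Real.log_le_log (by positivity) (by linarith)
    rw [Real.log_mul (by norm_num) hx0.ne'] at h1
    have := Real.log_two_lt_d9
    linarith
  have hsq : Real.sqrt x = t ^ 2 := by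
    rw [← ht4, show t ^ 4 = (t ^ 2) ^ 2 by ring, Real.sqrt_sq (by positivity)]
  have h1 := Chebyshev.theta_ge' (x := x) (by linarith)
  have h2 := Chebyshev.theta_le_log4_mul_x (x := y) hy0.le
  have hlog4 : Real.log 4 = 2 * Real.log 2 := by
    rw [show (4 : ℝ) = 2 ^ 2 by norm_num, Real.log_pow]
    push_cast
    ring
  have hdiff : y ≤ Chebyshev.theta x - Chebyshev.theta y := by
    rw [hsq] at h1
    rw [hlog4] at h2
    have h3 := Real.log_two_gt_d9
    have h4 := Real.log_two_lt_d9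
    have h5 : 2 * t ^ 2 * Real.log x ≤ 8 * t ^ 3 := by
      have := mul_le_mul_of_nonneg_left hl1 (by positivity : 0 ≤ 2 * t ^ 2)
      linarith
    have h6 : 8 * t ^ 3 + 4 * t + 2 ≤ 9 / 100 * t ^ 4 := by
      have h7 : t ^ 3 * 100 ≤ t ^ 3 * t := mul_le_mul_of_nonneg_left ht100 (by positivity)
      have h8 : 4 * t + 2 ≤ t ^ 3 := by
        have : 100 * 100 * t ≤ t * t * t := by
          have := mul_le_mul ht100 ht100 (by norm_num) (by linarith)
          nlinarith
        nlinarith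
      nlinarith
    rw [ht4] at h6
    have hy4 : y = x / 4 := by rw [hx]; ring
    rw [hy4] at h2 ⊢
    nlinarith
  have hcard : Chebyshev.theta x - Chebyshev.theta y ≤
      (((Ioc ⌊y⌋₊ ⌊x⌋₊).filter Nat.Prime).card : ℝ) * Real.log x := by
    have hle : ⌊y⌋₊ ≤ ⌊x⌋₊ := Nat.floor_le_floor (by linarith)
    have e1 : Chebyshev.theta x = Chebyshev.theta y + ∑ p ∈ (Ioc ⌊y⌋₊ ⌊x⌋₊).filter Nat.Prime, Real.log (p : ℝ) := by
      unfold Chebyshev.theta
      rw [← sum_union]
      · congr 1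
        rw [← filter_union, Ioc_union_Ioc_eq_Ioc (by omega) hle]
      · rw [disjoint_left]
        intro p hp hp'
        rw [mem_filter, mem_Ioc] at hp hp'
        omega
    rw [e1, add_sub_cancel_left, ← nsmul_eq_mul]
    refine sum_le_card_nsmul _ _ _ fun p hp => ?_
    rw [mem_filter, mem_Ioc] at hp
    refine Real.log_le_log (by exact_mod_cast hp.2.pos) ?_
    exact (Nat.le_floor_iff hx0.le).1 hp.1.2
  rw [div_le_iff₀ hlogx]
  linarith

end Pool.Agent.H535.WS
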