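import Pool.Agent.H535.WS.Wt

set_option autoImplicit false

/-!
# The weighted sum for the primes
-/

open Finset

namespace Pool.Agent.H535.WS

open Pool.Agent.W110.HV Pool.Agent.H535.LB

open Classical in
/-- the indicator function of the primes larger than `w` -/
noncomputable def pw (w : ℝ) (n : ℕ) : ℝ := if n.Prime ∧ w < n then 1 else 0

theorem pf_le_pw (α w : ℝ) (N n : ℕ) (h : w ≤ (N : ℝ) ^ α) : pf α N n ≤ pw w n := by
  classical
  unfold pf pw
  by_cases h1 : n.Prime ∧ (N : ℝ) ^ α < n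
  · rw [if_pos h1, if_pos ⟨h1.1, lt_of_le_of_lt h h1.2⟩]
  · rw [if_neg h1]
    split_ifs <;> norm_num

theorem pw_param (α κ : ℝ) (hα : 1 / 2 < α) (hα1 : α < 1) (hκ : 0 < κ) : ∃ N0 : ℕ, ∀ N : ℕ, N0 ≤ N →
    ∀ w : ℝ, w ≤ (N : ℝ) ^ α →
    (N : ℝ) / (2 * Real.log N) ≤ ∑ n ∈ Icc 1 N, pw w n ∧
    (N : ℝ) * ∑ n ∈ Icc 1 N, pw w n ^ 2 ≤ (N : ℝ) ^ κ * (∑ n ∈ Icc 1 N, pw w n) ^ 2 := by
  classical
  obtain ⟨n0, h0⟩ := pf_param α κ hα hα1 hκ
  refine ⟨n0, fun N hN w hw => ?_⟩
  obtain ⟨hN3, h1, h2, _⟩ := h0 N hN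
  have hN0 : (0 : ℝ) < N := by exact_mod_cast (by omega : 0 < N)
  have hN3r : (3 : ℝ) ≤ N := by exact_mod_cast hN3
  have hlog : 0 < Real.log N := Real.log_pos (by linarith)
  have hle : ∑ n ∈ Icc 1 N, pf α N n ≤ ∑ n ∈ Icc 1 N, pw w n :=
    sum_le_sum fun n _ => pf_le_pw α w N n hw
  refine ⟨h1.trans hle, ?_⟩
  have e1 : ∑ n ∈ Icc 1 N, pf α N n ^ 2 = ∑ n ∈ Icc 1 N, pf α N n := by
    refine sum_congr rfl fun n _ => ?_
    unfold pf
    split_ifs <;> norm_num
  have e2 : ∑ n ∈ Icc 1 N, pw w n ^ 2 = ∑ n ∈ Icc 1 N, pw w n := by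
    refine sum_congr rfl fun n _ => ?_
    unfold pw
    split_ifs <;> norm_num
  rw [e1] at h2
  rw [e2]
  set A := ∑ n ∈ Icc 1 N, pf α N n with hA
  set B := ∑ n ∈ Icc 1 N, pw w n with hB
  have hA0 : 0 < A := lt_of_lt_of_le (by positivity) h1
  have hB0 : 0 < B := lt_of_lt_of_le hA0 hle
  have h3 : (N : ℝ) ≤ (N : ℝ) ^ κ * A := by
    have h4 : (N : ℝ) * A ≤ ((N : ℝ) ^ κ * A) * A := by
      calc (N : ℝ) * A ≤ (N : ℝ) ^ κ * A ^ 2 := h2
        _ = _ := by ring
    exact le_of_mul_le_mul_right h4 hA0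
  calc (N : ℝ) * B ≤ ((N : ℝ) ^ κ * A) * B := mul_le_mul_of_nonneg_right h3 hB0.le
    _ ≤ ((N : ℝ) ^ κ * B) * B := by gcongr
    _ = _ := by ring

theorem pw_close (w : ℝ) (N d l : ℕ) (hd1 : 0 < d) (hw : 0 ≤ w) :
    |pAP N d l - cF (pw w) N d l| ≤ w / d + 1 := by
  classical
  have hd0 : (0 : ℝ) < d := by exact_mod_cast hd1
  set M := ⌊w⌋₊ with hM
  have e1 : pAP N d l = ∑ n ∈ (Icc 1 N).filter (fun n => n ≡ l [MOD d]), if n.Prime then (1 : ℝ) else 0 := by
    unfold pAP
    rw [← sum_filter, sum_const, nsmul_eq_mul, mul_one, filter_filter]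
    congr 2
    ext n
    simp only [mem_filter]
    tauto
  have e2 : ∀ n ∈ (Icc 1 N).filter (fun n => n ≡ l [MOD d]),
      0 ≤ (if n.Prime then (1 : ℝ) else 0) - pw w n ∧
      (if n.Prime then (1 : ℝ) else 0) - pw w n ≤ if n ∈ Icc 1 M then (1 : ℝ) else 0 := by
    intro n hn
    rw [mem_filter, mem_Icc] at hn
    unfold pw
    by_cases hp : n.Prime
    · by_cases hx : w < n
      · rw [if_pos hp, if_pos ⟨hp, hx⟩]
        split_ifs <;> norm_num
      · rw [if_pos hp, if_neg (fun h => hx h.2), if_pos]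
        · norm_num
        · rw [mem_Icc]
          refine ⟨hn.1.1, ?_⟩
          rw [hM, Nat.le_floor_iff hw]
          exact not_lt.1 hx
    · rw [if_neg hp, if_neg (fun h => hp h.1)]
      split_ifs <;> norm_num
  have e3 : pAP N d l - cF (pw w) N d l = ∑ n ∈ (Icc 1 N).filter (fun n => n ≡ l [MOD d]),
      ((if n.Prime then (1 : ℝ) else 0) - pw w n) := by
    rw [e1]
    unfold cF
    rw [sum_sub_distrib]
  rw [e3, abs_of_nonneg (sum_nonneg fun n hn => (e2 n hn).1)]
  calc ∑ n ∈ (Icc 1 N).filter (fun n => n ≡ l [MOD d]), ((if n.Prime then (1 : ℝ) else 0) - pw w n)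
      ≤ ∑ n ∈ (Icc 1 N).filter (fun n => n ≡ l [MOD d]), (if n ∈ Icc 1 M then (1 : ℝ) else 0) :=
        sum_le_sum fun n hn => (e2 n hn).2
    _ = (((Icc 1 N).filter (fun n => n ≡ l [MOD d])).filter (fun n => n ∈ Icc 1 M)).card := by
        rw [← sum_filter, sum_const, nsmul_eq_mul, mul_one]
    _ ≤ (((Ioc 0 M).filter (fun n => n ≡ l [MOD d])).card : ℝ) := by
        have : ((Icc 1 N).filter (fun n => n ≡ l [MOD d])).filter (fun n => n ∈ Icc 1 M) ⊆
            (Ioc 0 M).filter (fun n => n ≡ l [MOD d]) := by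
          intro n hn
          rw [mem_filter, mem_filter, mem_Icc, mem_Icc] at hn
          rw [mem_filter, mem_Ioc]
          exact ⟨⟨by omega, hn.2.2⟩, hn.1.2⟩
        exact_mod_cast card_le_card this
    _ ≤ w / d + 1 := by
        have h1 : (((Ioc 0 M).filter (fun n => n ≡ l [MOD d])).card : ℝ) ≤ M / d + 1 := by
          have h2 := Nat.Ioc_filter_modEq_card 0 M hd1 l
          have h3 : ((((Ioc 0 M).filter (fun n => n ≡ l [MOD d])).card : ℤ) : ℝ) ≤ M / d + 1 := by
            rw [h2]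
            push_cast
            have h4 : (⌊((M : ℚ) - l) / d⌋ : ℝ) ≤ ((M : ℝ) - l) / d := by
              have := Int.floor_le (((M : ℚ) - l) / d)
              exact_mod_cast this
            have h5 : ((0 : ℝ) - l) / d - 1 < (⌊(((0 : ℕ) : ℚ) - l) / d⌋ : ℝ) := by
              have := Int.lt_floor_add_one ((((0 : ℕ) : ℚ) - l) / d)
              have h6 : ((((0 : ℕ) : ℚ) - l) / d : ℚ) < (⌊(((0 : ℕ) : ℚ) - l) / d⌋ : ℚ) + 1 := this
              have h7 : ((((((0 : ℕ) : ℚ) - l) / d : ℚ)) : ℝ) < (⌊(((0 : ℕ) : ℚ) - l) / d⌋ : ℝ) + 1 := by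
                exact_mod_cast h6
              push_cast at h7
              push_cast
              linarith
            push_cast at h5
            have h8 : ((M : ℝ) - l) / d = M / d + (0 - l) / d := by ring
            have h9 : (0 : ℝ) ≤ M / d := by positivity
            apply max_le _ (by positivity)
            linarith
          exact_mod_cast h3
        have h2 : (M : ℝ) ≤ w := Nat.floor_le hw
        have h3 : (M : ℝ) / d ≤ w / d := div_le_div_of_nonneg_right h2 hd0.le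
        linarith

/-- the primes, with the weight `3 ^ ω(d)` -/
theorem primes_weighted (ε : ℝ) (hε : 0 < ε) (hε1 : ε ≤ 1 / 8) : ∃ c : ℝ, 0 < c ∧ ∃ N0 : ℕ, ∀ N : ℕ, N0 ≤ N →
    ∀ Q : ℝ, (N : ℝ) ^ (1 / 2 + ε) ≤ Q → Q ≤ (N : ℝ) ^ (1 - ε) → ∀ β : ℕ → ℝ,
    ∃ l : ℕ → ℕ, (∀ d : ℕ, 1 ≤ d → l d ∈ Cls (fun _ => 0) d) ∧
      c * (Real.sqrt (N * Q) * (Real.log N * Real.sqrt (Real.log N))) ≤
        ∑ d ∈ (Ico 1 ⌈Q⌉₊).filter Squarefree, W3 d * |pAP N d (l d) - β d| := by
  classical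
  set δ : ℝ := ε / 3 with hδdef
  have hδ : 0 < δ := by positivity
  obtain ⟨c, hc, n1, h1⟩ := weighted δ hδ
  obtain ⟨n2, h2⟩ := pw_param (1 - ε) (δ / 32) (by linarith) (by linarith) (by positivity)
  have hsδ : 0 < Real.sqrt δ := Real.sqrt_pos.2 hδ
  obtain ⟨n3, h3⟩ := ev_const (68 / Real.sqrt δ * (1 / (ε / 4))) (ε / 4) (by positivity)
  refine ⟨c * Real.sqrt δ / 4, by positivity, max (max n1 n2) (max n3 3), fun N hN Q hQ hQ1 β => ?_⟩
  have hn1 : n1 ≤ N := le_trans (le_trans (le_max_left _ _) (le_max_left _ _)) hN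
  have hn2 : n2 ≤ N := le_trans (le_trans (le_max_right _ _) (le_max_left _ _)) hN
  have hn3 : n3 ≤ N := le_trans (le_trans (le_max_left _ _) (le_max_right _ _)) hN
  have hN3 : 3 ≤ N := le_trans (le_trans (le_max_right _ _) (le_max_right _ _)) hN
  have hN0 : (0 : ℝ) < N := by exact_mod_cast (by omega : 0 < N)
  have hN3r : (3 : ℝ) ≤ N := by exact_mod_cast hN3
  have hN1r : (1 : ℝ) ≤ N := by linarith
  have hlog1 : 1 ≤ Real.log N := by
    rw [Real.le_log_iff_exp_le hN0]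
    have := Real.exp_one_lt_d9
    linarith
  have hlog : 0 < Real.log N := by linarith
  have hsl : 0 < Real.sqrt (Real.log N) := Real.sqrt_pos.2 hlog
  have hQ0 : 0 < Q := lt_of_lt_of_le (by positivity) hQ
  have hQN : Q ≤ N := by
    refine hQ1.trans ?_
    calc (N : ℝ) ^ (1 - ε) ≤ (N : ℝ) ^ (1 : ℝ) := Real.rpow_le_rpow_of_exponent_le hN1r (by linarith)
      _ = N := Real.rpow_one _
  obtain ⟨hS, hnorm⟩ := h2 N hn2 Q hQ1
  obtain ⟨l, hl, G, hG, hGd, hGc, hGq⟩ := h1 N hn1 Q (by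
    refine le_trans (le_of_eq ?_) hQ
    congr 1
    rw [hδdef]
    ring) hQN (fun _ => 0) (pw Q) (by
      intro n hn hne p hp hpK h
      unfold pw at hne
      rw [ne_eq, ite_eq_right_iff, Classical.not_imp] at hne
      have h2 : p ∣ n := by
        have : (p : ℤ) ∣ (n : ℤ) := by simpa using h
        exact_mod_cast this
      have h3 := (Nat.prime_dvd_prime_iff_eq hp hne.1.1).1 h2
      rw [← h3] at hne
      exact absurd hpK (not_le.2 hne.1.2)) hnorm β
  refine ⟨l, hl, ?_⟩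
  set S := ∑ n ∈ Icc 1 N, pw Q n with hSdef
  have hS0 : 0 < S := lt_of_lt_of_le (by positivity) hS
  have hsNQ : 0 < Real.sqrt (N * Q) := Real.sqrt_pos.2 (by positivity)
  set T := Real.sqrt δ * |S| * (Real.sqrt (Real.log N) / Real.sqrt (N * Q)) with hT
  have hT1 : Real.sqrt δ / 2 * (N / (Real.sqrt (N * Q) * Real.sqrt (Real.log N))) ≤ T := by
    have e1 : Real.sqrt δ / 2 * (N / (Real.sqrt (N * Q) * Real.sqrt (Real.log N))) =
        Real.sqrt δ * (N / (2 * Real.log N)) * (Real.sqrt (Real.log N) / Real.sqrt (N * Q)) := by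
      have h4 : Real.log N = Real.sqrt (Real.log N) * Real.sqrt (Real.log N) :=
        (Real.mul_self_sqrt hlog.le).symm
      have h5 : (N : ℝ) / (2 * Real.log N) * Real.sqrt (Real.log N) =
          N / 2 / Real.sqrt (Real.log N) := by
        rw [div_mul_eq_mul_div, div_eq_div_iff (by positivity) hsl.ne']
        calc (N : ℝ) * Real.sqrt (Real.log N) * Real.sqrt (Real.log N)
            = N * (Real.sqrt (Real.log N) * Real.sqrt (Real.log N)) := by ring
          _ = N * Real.log N := by rw [← h4]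
          _ = _ := by ring
      calc Real.sqrt δ / 2 * (N / (Real.sqrt (N * Q) * Real.sqrt (Real.log N)))
          = Real.sqrt δ * (N / 2 / Real.sqrt (Real.log N)) / Real.sqrt (N * Q) := by
            field_simp
        _ = _ := by
            rw [← h5]
            ring
    rw [e1, hT]
    gcongr
    exact hS.trans (le_abs_self S)
  have hT34 : 34 ≤ T := by
    refine le_trans ?_ hT1
    have g3 := h3 N hn3
    have h4 : (N : ℝ) ^ (ε / 2) ≤ N / Real.sqrt (N * Q) := by
      rw [le_div_iff₀ hsNQ]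
      have h5 : Real.sqrt (N * Q) ≤ (N : ℝ) ^ (1 - ε / 2) := by
        rw [Real.sqrt_le_left (by positivity)]
        calc (N : ℝ) * Q ≤ N * (N : ℝ) ^ (1 - ε) := by gcongr
          _ = (N : ℝ) ^ (1 + (1 - ε)) := by rw [Real.rpow_add hN0, Real.rpow_one]
          _ = ((N : ℝ) ^ (1 - ε / 2)) ^ 2 := by
              rw [← Real.rpow_natCast, ← Real.rpow_mul hN0.le]
              congr 1
              push_cast
              ring
      calc (N : ℝ) ^ (ε / 2) * Real.sqrt (N * Q) ≤ (N : ℝ) ^ (ε / 2) * (N : ℝ) ^ (1 - ε / 2) := by gcongr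
        _ = N := by
            rw [← Real.rpow_add hN0]
            have : ε / 2 + (1 - ε / 2) = 1 := by ring
            rw [this, Real.rpow_one]
    have h6 : Real.sqrt (Real.log N) ≤ (N : ℝ) ^ (ε / 4) * (1 / (ε / 4)) := by
      have h21 : Real.log N ≤ (N : ℝ) ^ (ε / 4) / (ε / 4) := Real.log_le_rpow_div hN0.le (by positivity)
      have h22 : Real.sqrt (Real.log N) ≤ Real.log N := by
        rw [Real.sqrt_le_left hlog.le]
        nlinarith
      calc Real.sqrt (Real.log N) ≤ (N : ℝ) ^ (ε / 4) / (ε / 4) := h22.trans h21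
        _ = _ := by ring
    have h7 : 68 / Real.sqrt δ * Real.sqrt (Real.log N) ≤ (N : ℝ) ^ (ε / 2) := by
      have e : (N : ℝ) ^ (ε / 2) = (N : ℝ) ^ (ε / 4) * (N : ℝ) ^ (ε / 4) := by
        rw [← Real.rpow_add hN0]
        congr 1
        ring
      rw [e]
      calc 68 / Real.sqrt δ * Real.sqrt (Real.log N) ≤
            68 / Real.sqrt δ * ((N : ℝ) ^ (ε / 4) * (1 / (ε / 4))) := by gcongr
        _ = (68 / Real.sqrt δ * (1 / (ε / 4))) * (N : ℝ) ^ (ε / 4) := by ring
        _ ≤ (N : ℝ) ^ (ε / 4) * (N : ℝ) ^ (ε / 4) := by gcongr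
    have h8 : 68 / Real.sqrt δ * Real.sqrt (Real.log N) ≤ N / Real.sqrt (N * Q) := h7.trans h4
    calc (34 : ℝ) = Real.sqrt δ / 2 * (68 / Real.sqrt δ * Real.sqrt (Real.log N) / Real.sqrt (Real.log N)) := by
          field_simp
          norm_num
      _ ≤ Real.sqrt δ / 2 * (N / Real.sqrt (N * Q) / Real.sqrt (Real.log N)) := by gcongr
      _ = _ := by rw [div_div]
  have hdle : ∀ d ∈ G, T / 2 ≤ |pAP N d (l d) - β d| := by
    intro d hd
    have hd1 := hG hd
    rw [mem_filter, mem_Ico] at hd1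
    have hd0 : (0 : ℝ) < d := by exact_mod_cast (by omega : 0 < d)
    have h4 := hGq d hd
    have h5 := pw_close Q N d (l d) (by omega) hQ0.le
    have h6 : Q / d ≤ 16 := by
      rw [div_le_iff₀ hd0]
      have := hGd d hd
      linarith
    have h7 : |cF (pw Q) N d (l d) - β d| ≤ |pAP N d (l d) - β d| + |pAP N d (l d) - cF (pw Q) N d (l d)| := by
      have := abs_sub (pAP N d (l d) - β d) (pAP N d (l d) - cF (pw Q) N d (l d))
      have e : pAP N d (l d) - β d - (pAP N d (l d) - cF (pw Q) N d (l d)) =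
        cF (pw Q) N d (l d) - β d := by ring
      rw [e] at this
      exact this
    linarith
  calc c * Real.sqrt δ / 4 * (Real.sqrt (N * Q) * (Real.log N * Real.sqrt (Real.log N)))
      = (Real.sqrt δ / 2 * (N / (Real.sqrt (N * Q) * Real.sqrt (Real.log N)))) / 2 * (c * (Q * Real.log N ^ 2)) := by
        have h4 : Real.sqrt (N * Q) * Real.sqrt (N * Q) = N * Q := Real.mul_self_sqrt (by positivity)
        have h5 : Real.sqrt (Real.log N) * Real.sqrt (Real.log N) = Real.log N := Real.mul_self_sqrt hlog.le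
        have h6 : (N : ℝ) / (Real.sqrt (N * Q) * Real.sqrt (Real.log N)) * (Q * Real.log N ^ 2) =
            Real.sqrt (N * Q) * (Real.log N * Real.sqrt (Real.log N)) := by
          rw [div_mul_eq_mul_div, div_eq_iff (by positivity)]
          calc (N : ℝ) * (Q * Real.log N ^ 2) = (N * Q) * (Real.log N * Real.log N) := by ring
            _ = (Real.sqrt (N * Q) * Real.sqrt (N * Q)) *
                  (Real.log N * (Real.sqrt (Real.log N) * Real.sqrt (Real.log N))) := by rw [h4, h5]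
            _ = _ := by ring
        rw [← h6]
        ring
    _ ≤ T / 2 * ∑ d ∈ G, W3 d := by
        apply mul_le_mul _ hGc (by positivity) (by positivity)
        linarith
    _ = ∑ d ∈ G, W3 d * (T / 2) := by rw [mul_comm, sum_mul]
    _ ≤ ∑ d ∈ G, W3 d * |pAP N d (l d) - β d| :=
        sum_le_sum fun d hd => mul_le_mul_of_nonneg_left (hdle d hd) (W3_pos d).le
    _ ≤ _ := sum_le_sum_of_subset_of_nonneg hG fun d _ _ => mul_nonneg (W3_pos d).le (abs_nonneg _)

end Pool.Agent.H535.WS
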