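import Pool.Agent.H535.WS.Blk
import Pool.Agent.H535.LB.Primes

set_option autoImplicit false

/-!
# The weighted sum over the squarefree moduli of the maximal error
-/

open Finset

namespace Pool.Agent.H535.WS

open Pool.Agent.W110.HV Pool.Agent.H535.LB

theorem W3_le (d : ℕ) (hd : d ≠ 0) (D : ℝ) (h : (d.divisors.card : ℝ) ≤ D) : W3 d ≤ D ^ 2 := by
  have h1 := two_pow_le d hd
  rw [card_powerset] at h1
  have h2 : (2 : ℝ) ^ d.primeFactors.card ≤ D := le_trans (by exact_mod_cast h1) h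
  unfold W3
  calc (3 : ℝ) ^ d.primeFactors.card ≤ (2 ^ 2 : ℝ) ^ d.primeFactors.card :=
        pow_le_pow_left₀ (by norm_num) (by norm_num) _
    _ = ((2 : ℝ) ^ d.primeFactors.card) ^ 2 := by rw [← pow_mul, ← pow_mul, mul_comm]
    _ ≤ D ^ 2 := pow_le_pow_left₀ (by positivity) h2 2

theorem wt_param (δ c0 : ℝ) (hδ : 0 < δ) (hc0 : 0 < c0) (K0 : ℕ) : ∃ N0 : ℕ, ∀ N : ℕ, N0 ≤ N →
    3 ≤ N ∧ (∀ Q : ℝ, (N : ℝ) ^ (1 / 2 + 3 * δ) ≤ Q → Q ≤ N →
      K0 ≤ ⌊Q / 8⌋₊ ∧ 1 ≤ ⌊Q / 8⌋₊ ∧ (N : ℝ) ^ (1 / 2 + δ) ≤ ⌊Q / 8⌋₊ ∧ Q / 16 ≤ ⌊Q / 8⌋₊ ∧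
        (1 / 2 + 2 * δ) * Real.log N ≤ Real.log ⌊Q / 8⌋₊) ∧
    6 / c0 ≤ (N : ℝ) ^ (δ / 64) ∧ 3 ≤ Real.log N := by
  obtain ⟨n1, h1⟩ := ev_const (max 16 (16 * K0)) δ hδ
  obtain ⟨n2, h2⟩ := ev_const (6 / c0) (δ / 64) (by positivity)
  have hlogt : Filter.Tendsto (fun N : ℕ => Real.log N) Filter.atTop Filter.atTop :=
    Real.tendsto_log_atTop.comp tendsto_natCast_atTop_atTop
  obtain ⟨n3, h3⟩ := Filter.eventually_atTop.1 (hlogt.eventually (Filter.eventually_ge_atTop 3))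
  refine ⟨max (max n1 n2) (max n3 3), fun N hN => ?_⟩
  have hn1 : n1 ≤ N := le_trans (le_trans (le_max_left _ _) (le_max_left _ _)) hN
  have hn2 : n2 ≤ N := le_trans (le_trans (le_max_right _ _) (le_max_left _ _)) hN
  have hn3 : n3 ≤ N := le_trans (le_trans (le_max_left _ _) (le_max_right _ _)) hN
  have hN3 : 3 ≤ N := le_trans (le_trans (le_max_right _ _) (le_max_right _ _)) hN
  have hN0 : (0 : ℝ) < N := by exact_mod_cast (by omega : 0 < N)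
  have hN1r : (1 : ℝ) ≤ N := by exact_mod_cast (by omega : 1 ≤ N)
  have g1 := h1 N hn1
  have g16 : 16 ≤ (N : ℝ) ^ δ := (le_max_left _ _).trans g1
  have gK : 16 * (K0 : ℝ) ≤ (N : ℝ) ^ δ := (le_max_right _ _).trans g1
  refine ⟨hN3, fun Q hQ hQN => ?_, h2 N hn2, h3 N hn3⟩
  have hQ1 : (N : ℝ) ^ δ * (N : ℝ) ^ (1 / 2 + 2 * δ) ≤ Q := by
    rw [← Real.rpow_add hN0]
    refine le_trans (le_of_eq ?_) hQ
    congr 1
    ring
  have hone : 1 ≤ (N : ℝ) ^ (1 / 2 + 2 * δ) := Real.one_le_rpow hN1r (by positivity)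
  have hQδ : (N : ℝ) ^ δ ≤ Q := by
    refine le_trans ?_ hQ1
    exact le_mul_of_one_le_right (by positivity) hone
  have hQ16 : 16 ≤ Q := g16.trans hQδ
  have hK16 : Q / 16 ≤ ⌊Q / 8⌋₊ := by
    have := Nat.lt_floor_add_one (Q / 8)
    linarith
  have hbig : (N : ℝ) ^ (1 / 2 + 2 * δ) ≤ ⌊Q / 8⌋₊ := by
    refine le_trans ?_ hK16
    rw [le_div_iff₀ (by norm_num)]
    have := mul_le_mul_of_nonneg_right g16 (by positivity : 0 ≤ (N : ℝ) ^ (1 / 2 + 2 * δ))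
    linarith
  refine ⟨?_, ?_, ?_, hK16, ?_⟩
  · have : (K0 : ℝ) ≤ ⌊Q / 8⌋₊ := by
      refine le_trans ?_ hK16
      linarith
    exact_mod_cast this
  · have : (1 : ℝ) ≤ ⌊Q / 8⌋₊ := by linarith
    exact_mod_cast this
  · exact (Real.rpow_le_rpow_of_exponent_le hN1r (by linarith)).trans hbig
  · rw [← Real.log_rpow hN0]
    exact Real.log_le_log (by positivity) hbig

/-- the weighted sum, general weights -/
theorem weighted (δ : ℝ) (hδ : 0 < δ) : ∃ c : ℝ, 0 < c ∧ ∃ N0 : ℕ, ∀ N : ℕ, N0 ≤ N → ∀ Q : ℝ,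
    (N : ℝ) ^ (1 / 2 + 3 * δ) ≤ Q → Q ≤ N → ∀ (b : ℕ → ℕ) (f : ℕ → ℝ),
    (∀ n ∈ Icc 1 N, f n ≠ 0 → ∀ p : ℕ, p.Prime → (p : ℝ) ≤ Q → ¬ (p : ℤ) ∣ (n : ℤ) - b p) →
    (N : ℝ) * ∑ n ∈ Icc 1 N, f n ^ 2 ≤ (N : ℝ) ^ (δ / 32) * (∑ n ∈ Icc 1 N, f n) ^ 2 →
    ∀ β : ℕ → ℝ, ∃ l : ℕ → ℕ, (∀ d : ℕ, 1 ≤ d → l d ∈ Cls b d) ∧
      ∃ G : Finset ℕ, G ⊆ (Ico 1 ⌈Q⌉₊).filter Squarefree ∧
        (∀ d ∈ G, Q / 16 ≤ d) ∧ c * (Q * Real.log N ^ 2) ≤ ∑ d ∈ G, W3 d ∧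
        ∀ d ∈ G, Real.sqrt δ * |∑ n ∈ Icc 1 N, f n| * (Real.sqrt (Real.log N) / Real.sqrt (N * Q)) ≤
          |cF f N d (l d) - β d| := by
  classical
  obtain ⟨c0, hc0, K0, hblk⟩ := block_sum
  obtain ⟨n1, h1⟩ := main δ hδ
  obtain ⟨n2, h2⟩ := wt_param δ c0 hδ hc0 K0
  obtain ⟨n3, h3⟩ := div_N (δ / 128) (by positivity)
  refine ⟨c0 / 128, by positivity, max n1 (max n2 n3), fun N hN Q hQ hQN b f hf hnorm β => ?_⟩
  have hN1' : n1 ≤ N := (le_max_left _ _).trans hN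
  have hN2' : n2 ≤ N := le_trans (le_trans (le_max_left _ _) (le_max_right _ _)) hN
  have hN3' : n3 ≤ N := le_trans (le_trans (le_max_right _ _) (le_max_right _ _)) hN
  obtain ⟨hN3, hKK, hv, hl3⟩ := h2 N hN2'
  obtain ⟨hKK0, hK1, hKlow, hK16, hKlog⟩ := hKK Q hQ hQN
  have hdiv := h3 N hN3'
  have hN0 : (0 : ℝ) < N := by exact_mod_cast (by omega : 0 < N)
  have hN1r : (1 : ℝ) ≤ N := by exact_mod_cast (by omega : 1 ≤ N)
  have hQ0 : 0 < Q := lt_of_lt_of_le (by positivity) hQ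
  set K := ⌊Q / 8⌋₊ with hK
  have hK0 : (0 : ℝ) < K := by exact_mod_cast hK1
  have hKQ : (K : ℝ) ≤ Q / 8 := Nat.floor_le (by positivity)
  have h8K : 8 * (K : ℝ) ≤ N := by linarith
  have h8K' : 8 * K ≤ N := by exact_mod_cast h8K
  set S := ∑ n ∈ Icc 1 N, f n with hS
  have hf' : ∀ J : ℕ, J ≤ 4 * K → ∀ n ∈ Icc 1 N, f n ≠ 0 → ∀ p : ℕ, p.Prime → p ≤ J →
      ¬ (p : ℤ) ∣ (n : ℤ) - b p := by
    intro J hJ n hn hne p hp hpJ
    apply hf n hn hne p hp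
    have : (p : ℝ) ≤ 4 * K := by exact_mod_cast hpJ.trans hJ
    linarith
  obtain ⟨E1, hE1, hE1c, hE1q⟩ := h1 N hN1' K hKlow (by omega) b f
    (hf' (2 * K) (by omega)) hnorm
  obtain ⟨E2, hE2, hE2c, hE2q⟩ := h1 N hN1' (2 * K) (hKlow.trans (by push_cast; linarith)) (by omega) b f
    (hf' (2 * (2 * K)) (by omega)) hnorm
  have hlogN : 0 ≤ Real.log N := by linarith
  set t : ℝ := δ * Real.log N * S ^ 2 / N / (4 * K) with ht
  have ht0 : 0 ≤ t := by positivity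
  have hlog2 : Real.log K ≤ Real.log (2 * K : ℕ) := by
    apply Real.log_le_log hK0
    push_cast
    linarith
  have hgood : ∀ q ∈ Ioc K (4 * K), q ∉ E1 ∪ E2 → ∃ a ∈ Cls b q, Real.sqrt t ≤ |cF f N q a - β q| := by
    intro q hq hqE
    have hq' := mem_Ioc.1 hq
    rw [mem_union, not_or] at hqE
    apply exists_class b f N q (by omega) (β q) t (δ * Real.log N * S ^ 2 / N) (4 * K)
      (by exact_mod_cast hq'.2) ht0
    · rw [ht]
      field_simp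
      exact le_rfl
    · have h5 : δ * Real.log N ≤ Real.log K - (1 / 2 + δ) * Real.log N := by linarith
      rcases Nat.lt_or_ge (2 * K) q with h6 | h6
      · refine le_trans ?_ (hE2q q (mem_Ioc.2 ⟨h6, by omega⟩) hqE.2 (β q))
        have h7 : δ * Real.log N ≤ Real.log (2 * K : ℕ) - (1 / 2 + δ) * Real.log N := by linarith
        gcongr
      · refine le_trans ?_ (hE1q q (mem_Ioc.2 ⟨hq'.1, h6⟩) hqE.1 (β q))
        gcongr
  have hex : ∀ q : ℕ, ∃ a : ℕ, (1 ≤ q → a ∈ Cls b q) ∧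
      (q ∈ Ioc K (4 * K) → q ∉ E1 ∪ E2 → Real.sqrt t ≤ |cF f N q a - β q|) := by
    intro q
    by_cases h : q ∈ Ioc K (4 * K) ∧ q ∉ E1 ∪ E2
    · obtain ⟨a, ha, h5⟩ := hgood q h.1 h.2
      exact ⟨a, fun _ => ha, fun _ _ => h5⟩
    · by_cases hq : 1 ≤ q
      · obtain ⟨a, ha⟩ := Cls_nonempty b q hq
        exact ⟨a, fun _ => ha, fun h5 h6 => absurd ⟨h5, h6⟩ h⟩
      · exact ⟨0, fun h5 => absurd h5 hq, fun h5 h6 => absurd ⟨h5, h6⟩ h⟩
  choose l hl1 hl2 using hex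
  refine ⟨l, hl1, ((Ioc K (4 * K)).filter Squarefree) \ (E1 ∪ E2), ?_, ?_, ?_, ?_⟩
  · intro d hd
    rw [mem_sdiff, mem_filter, mem_Ioc] at hd
    rw [mem_filter, mem_Ico]
    refine ⟨⟨by omega, ?_⟩, hd.1.2⟩
    rw [Nat.lt_ceil]
    have : (d : ℝ) ≤ 4 * K := by exact_mod_cast hd.1.1.2
    linarith
  · intro d hd
    rw [mem_sdiff, mem_filter, mem_Ioc] at hd
    refine hK16.trans ?_
    exact_mod_cast hd.1.1.1.le
  · -- the weighted number of good moduli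
    set v : ℝ := (N : ℝ) ^ (δ / 64) with hvdef
    have hv0 : 0 < v := by positivity
    have hv2 : (N : ℝ) ^ (δ / 32) = v ^ 2 := by
      rw [hvdef, ← Real.rpow_natCast, ← Real.rpow_mul hN0.le]
      congr 1
      push_cast
      ring
    have hv3 : ((N : ℝ) ^ (δ / 128)) ^ 2 = v := by
      rw [hvdef, ← Real.rpow_natCast, ← Real.rpow_mul hN0.le]
      congr 1
      push_cast
      ring
    rw [hv2] at hE1c hE2c
    push_cast at hE2c
    have hEc : ((E1 ∪ E2).card : ℝ) ≤ 3 * K / v ^ 2 := by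
      have h5 : ((E1 ∪ E2).card : ℝ) ≤ E1.card + E2.card := by exact_mod_cast card_union_le _ _
      have h6 : (K : ℝ) / v ^ 2 + 2 * K / v ^ 2 = 3 * K / v ^ 2 := by ring
      linarith
    have hWE : ∑ d ∈ E1 ∪ E2, W3 d ≤ 3 * K / v := by
      calc ∑ d ∈ E1 ∪ E2, W3 d ≤ ∑ _d ∈ E1 ∪ E2, v := by
            refine sum_le_sum fun d hd => ?_
            have hd' : K < d ∧ d ≤ 4 * K := by
              rcases mem_union.1 hd with h | h
              · have := mem_Ioc.1 (hE1 h)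
                omega
              · have := mem_Ioc.1 (hE2 h)
                omega
            rw [← hv3]
            exact W3_le d (by omega) _ (hdiv d (by omega) (by omega))
        _ = (E1 ∪ E2).card * v := by rw [sum_const, nsmul_eq_mul]
        _ ≤ 3 * K / v ^ 2 * v := mul_le_mul_of_nonneg_right hEc hv0.le
        _ = 3 * K / v := by field_simp
    have hsum : ∑ d ∈ (Ioc K (4 * K)).filter Squarefree, W3 d ≤
        ∑ d ∈ (Ioc K (4 * K)).filter Squarefree \ (E1 ∪ E2), W3 d + ∑ d ∈ E1 ∪ E2, W3 d := by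
      rw [← sum_union sdiff_disjoint]
      refine sum_le_sum_of_subset_of_nonneg ?_ (fun d _ _ => (W3_pos d).le)
      intro x hx
      rw [mem_union, mem_sdiff]
      by_cases h6 : x ∈ E1 ∪ E2
      · exact Or.inr h6
      · exact Or.inl ⟨hx, h6⟩
    have h5 := hblk K hKK0
    have hlK : Real.log N / 2 ≤ Real.log K := by
      have : 0 ≤ 2 * δ * Real.log N := by positivity
      linarith
    have hlK1 : 1 ≤ Real.log K ^ 2 := by
      have : 1 ≤ Real.log K := by linarith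
      nlinarith
    have h6 : 3 * (K : ℝ) / v ≤ c0 / 2 * (K * Real.log K ^ 2) := by
      rw [div_le_iff₀ hv0]
      have h7 : 3 ≤ c0 / 2 * v := by
        rw [div_le_iff₀ hc0] at hv
        linarith
      calc 3 * (K : ℝ) ≤ (c0 / 2 * v) * K := mul_le_mul_of_nonneg_right h7 hK0.le
        _ ≤ (c0 / 2 * v) * K * Real.log K ^ 2 := le_mul_of_one_le_right (by positivity) hlK1
        _ = _ := by ring
    have h7 : c0 / 128 * (Q * Real.log N ^ 2) ≤ c0 / 2 * (K * Real.log K ^ 2) := by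
      have h8 : (Real.log N / 2) ^ 2 ≤ Real.log K ^ 2 := pow_le_pow_left₀ (by linarith) hlK 2
      calc c0 / 128 * (Q * Real.log N ^ 2) = c0 / 2 * (Q / 16 * (Real.log N / 2) ^ 2) := by ring
        _ ≤ c0 / 2 * (K * Real.log K ^ 2) := by gcongr
    linarith
  · intro d hd
    rw [mem_sdiff, mem_filter] at hd
    refine le_trans ?_ (hl2 d hd.1.1 hd.2)
    apply Real.le_sqrt_of_sq_le
    have e1 : (Real.sqrt δ * |S| * (Real.sqrt (Real.log N) / Real.sqrt (N * Q))) ^ 2 =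
        δ * Real.log N * S ^ 2 / N * (1 / Q) := by
      rw [mul_pow, mul_pow, div_pow, sq_abs, Real.sq_sqrt hδ.le, Real.sq_sqrt hlogN,
        Real.sq_sqrt (by positivity)]
      field_simp
    rw [e1, ht, div_eq_mul_one_div _ (4 * (K : ℝ))]
    apply mul_le_mul_of_nonneg_left _ (by positivity)
    apply div_le_div_of_nonneg_left (by norm_num) (by positivity)
    linarith

end Pool.Agent.H535.WS
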